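import Pool.Agent.MVD.StmtsLoc
import Pool.Agent.Helper21_MVD.SHP

/-!
# MVD, row STB (helper70): the words equivalent to the first word of the pentagon
-/

set_option autoImplicit false

namespace Pool.Agent.MVD.H70

open Pool.Agent.Helper14_MV Pool.Agent.Helper2_MV
open Pool.Agent.MVD.H21 (pp Wm_eq lift_btw Bw_append Bw_cons)

/-- uniqueness of the decomposition at a letter which does not occur before -/
theorem split_left {s : ℕ} : ∀ {A A' B B' : List ℕ}, s ∉ A → s ∉ A' →
    A ++ s :: B = A' ++ s :: B' → A = A' ∧ B = B' := by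
  intro A
  induction A with
  | nil =>
    intro A' B B' _ h2 h
    cases A' with
    | nil =>
      simp only [List.nil_append, List.cons.injEq, true_and] at h
      exact ⟨rfl, h⟩
    | cons t A' =>
      simp only [List.nil_append, List.cons_append, List.cons.injEq] at h
      exact absurd (by rw [h.1]; simp) h2
  | cons t A ih =>
    intro A' B B' h1 h2 h
    cases A' with
    | nil =>
      simp only [List.nil_append, List.cons_append, List.cons.injEq] at h
      exact absurd (by rw [h.1]; simp) h1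
    | cons t' A' =>
      simp only [List.cons_append, List.cons.injEq] at h
      have h3 : s ∉ A := fun h' => h1 (List.mem_cons_of_mem _ h')
      have h4 : s ∉ A' := fun h' => h2 (List.mem_cons_of_mem _ h')
      obtain ⟨h5, h6⟩ := ih h3 h4 h.2
      exact ⟨by rw [h.1, h5], h6⟩

/-- uniqueness of the decomposition at a letter which does not occur after -/
theorem split_right {s : ℕ} {A A' B B' : List ℕ} (h1 : s ∉ B) (h2 : s ∉ B')
    (h : A ++ s :: B = A' ++ s :: B') : A = A' ∧ B = B' := by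
  have h3 : B.reverse ++ s :: A.reverse = B'.reverse ++ s :: A'.reverse := by
    have := congrArg List.reverse h
    simpa using this
  obtain ⟨h4, h5⟩ := split_left (by simpa using h1) (by simpa using h2) h3
  exact ⟨List.reverse_injective h5, List.reverse_injective h4⟩

/-- the places `a`, `b`, `f`, `z` -/
def bad (a b f z c : ℕ) : Prop :=
  c = 3 * a + 1 ∨ c = 3 * b + 1 ∨ c = 3 * f + 1 ∨ c = 3 * z + 1 ∨
    c = 3 * (a + 1) + 2 ∨ c = 3 * (b + 1) + 2 ∨ c = 3 * (f + 1) + 2 ∨ c = 3 * (z + 1) + 2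

instance (a b f z c : ℕ) : Decidable (bad a b f z c) := by
  unfold bad
  infer_instance

/-- the projection: the place `t` is renamed to `f`, the other ones of `a`, `b`, `f`, `z` are erased -/
def pr (a b f z t c : ℕ) : List ℕ :=
  if c = 3 * t + 1 then [3 * f + 1] else if c = 3 * (t + 1) + 2 then [3 * (f + 1) + 2]
    else if bad a b f z c then [] else [c]

variable {a b f z t : ℕ}

theorem pr_len (c : ℕ) : (pr a b f z t c).length ≤ 1 := by
  unfold pr
  split_ifs <;> simp

theorem pr_z : pr a b f z t (3 * t + 1) = [3 * f + 1] := by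
  unfold pr
  rw [if_pos rfl]

theorem pr_s : pr a b f z t (3 * (t + 1) + 2) = [3 * (f + 1) + 2] := by
  unfold pr
  rw [if_neg (by omega), if_pos rfl]

theorem pr_bad {c : ℕ} (h1 : c ≠ 3 * t + 1) (h2 : c ≠ 3 * (t + 1) + 2) (h : bad a b f z c) :
    pr a b f z t c = [] := by
  unfold pr
  rw [if_neg h1, if_neg h2, if_pos h]

theorem pr_ok {c : ℕ} (ht : t = a ∨ t = b ∨ t = f) (h : ¬ bad a b f z c) :
    pr a b f z t c = [c] := by
  unfold pr
  rw [if_neg, if_neg, if_neg h]
  · intro h1
    apply h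
    unfold bad
    rcases ht with rfl | rfl | rfl <;> simp [h1]
  · intro h1
    apply h
    unfold bad
    rcases ht with rfl | rfl | rfl <;> simp [h1]

theorem pr_mem {c x : ℕ} (h : x ∈ pr a b f z t c) :
    (c = 3 * t + 1 ∧ x = 3 * f + 1) ∨ (c = 3 * (t + 1) + 2 ∧ x = 3 * (f + 1) + 2) ∨
      (c = x ∧ ¬ bad a b f z c) := by
  unfold pr at h
  split_ifs at h with h1 h2 h3
  · left
    exact ⟨h1, by simpa using h⟩
  · right
    left
    exact ⟨h2, by simpa using h⟩
  · simp at h
  · right
    right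
    exact ⟨(List.mem_singleton.1 h).symm, h3⟩

theorem flat_ok (ht : t = a ∨ t = b ∨ t = f) : ∀ l : List ℕ, (∀ c ∈ l, ¬ bad a b f z c) →
    l.flatMap (pr a b f z t) = l := by
  intro l
  induction l with
  | nil =>
    intro _
    rfl
  | cons c l ih =>
    intro h
    rw [List.flatMap_cons, pr_ok ht (h c (by simp)), ih (fun c hc => h c (by simp [hc]))]
    rfl

theorem sfr_flat {l : List ℕ} (h : SFr l) : SFr (l.flatMap (pr a b f z t)) := by
  intro x hx
  rw [List.mem_flatMap] at hx
  obtain ⟨c, hc, hx⟩ := hx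
  have h1 := h c hc
  rcases pr_mem hx with ⟨h2, h3⟩ | ⟨h2, h3⟩ | ⟨h2, -⟩ <;> omega

theorem count_zero_flat (l : List ℕ) : (l.flatMap (pr a b f z t)).count 0 = l.count 0 := by
  induction l with
  | nil => rfl
  | cons c l ih =>
    rw [List.flatMap_cons, List.count_append, ih, List.count_cons]
    by_cases h : c = 0
    · have h0 : pr a b f z t c = [0] := by
        have h1 : ¬ bad a b f z c := by
          unfold bad
          omega
        unfold pr
        rw [if_neg (by omega), if_neg (by omega), if_neg h1, h]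
      rw [h0, h]
      simp
      omega
    · have h0 : (pr a b f z t c).count 0 = 0 := by
        rw [List.count_eq_zero]
        intro h1
        rcases pr_mem h1 with ⟨h2, h3⟩ | ⟨h2, h3⟩ | ⟨h2, -⟩ <;> omega
      rw [h0]
      have : (c == 0) = false := by simpa using h
      rw [this]
      simp

theorem zero_mem_flat {l : List ℕ} (h : 0 ∈ l) : 0 ∈ l.flatMap (pr a b f z t) := by
  rw [← List.count_pos_iff, count_zero_flat, List.count_pos_iff]
  exact h

theorem mem_pp {P : List ℕ} {c : ℕ} : c ∈ pp P ↔ ∃ e ∈ P, c = 3 * e + 1 ∨ c = 3 * (e + 1) + 2 := by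
  unfold pp
  rw [List.mem_flatMap]
  simp

theorem zero_pp {P : List ℕ} : 0 ∉ pp P := by
  rw [mem_pp]
  rintro ⟨e, -, h | h⟩ <;> omega

theorem two_pp {P : List ℕ} : 2 ∉ pp P := by
  rw [mem_pp]
  rintro ⟨e, -, h | h⟩ <;> omega

theorem pp_append (P Q : List ℕ) : pp (P ++ Q) = pp P ++ pp Q := by
  unfold pp
  rw [List.flatMap_append]

theorem pp_cons (e : ℕ) (P : List ℕ) :
    pp (e :: P) = (3 * e + 1) :: (3 * (e + 1) + 2) :: pp P := by
  unfold pp
  rw [List.flatMap_cons]
  rfl

theorem pp_nil : pp [] = [] := rfl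

/-- places which are kept -/
theorem flat_pp (ht : t = a ∨ t = b ∨ t = f) {P : List ℕ}
    (h : ∀ i ∈ P, i ≠ a ∧ i ≠ b ∧ i ≠ f ∧ i ≠ z) : (pp P).flatMap (pr a b f z t) = pp P := by
  apply flat_ok ht
  intro c hc
  rw [mem_pp] at hc
  obtain ⟨e, he, hc⟩ := hc
  obtain ⟨h1, h2, h3, h4⟩ := h e he
  unfold bad
  omega

/-- the left places -/
theorem flat_left (hab : a ≠ b) (haf : a ≠ f) (hbf : b ≠ f) (ht : t = a ∨ t = b ∨ t = f)
    {P1 P2 : List ℕ} (h1 : ∀ i ∈ P1, i ≠ a ∧ i ≠ b ∧ i ≠ f ∧ i ≠ z)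
    (h2 : ∀ i ∈ P2, i ≠ a ∧ i ≠ b ∧ i ≠ f ∧ i ≠ z) :
    (pp (P1 ++ a :: b :: f :: P2)).flatMap (pr a b f z t) = pp (P1 ++ f :: P2) := by
  rw [pp_append, pp_cons, pp_cons, pp_cons, pp_append, pp_cons, List.flatMap_append,
    flat_pp ht h1]
  simp only [List.flatMap_cons]
  rw [flat_pp ht h2]
  have b1 : bad a b f z (3 * a + 1) := by unfold bad; omega
  have b2 : bad a b f z (3 * b + 1) := by unfold bad; omega
  have b3 : bad a b f z (3 * f + 1) := by unfold bad; omega
  have b4 : bad a b f z (3 * (a + 1) + 2) := by unfold bad; omega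
  have b5 : bad a b f z (3 * (b + 1) + 2) := by unfold bad; omega
  have b6 : bad a b f z (3 * (f + 1) + 2) := by unfold bad; omega
  rcases ht with rfl | rfl | rfl
  · rw [pr_z, pr_s, pr_bad (by omega) (by omega) b2, pr_bad (by omega) (by omega) b3,
      pr_bad (by omega) (by omega) b5, pr_bad (by omega) (by omega) b6]
    rfl
  · rw [pr_z, pr_s, pr_bad (by omega) (by omega) b1, pr_bad (by omega) (by omega) b3,
      pr_bad (by omega) (by omega) b4, pr_bad (by omega) (by omega) b6]
    rfl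
  · rw [pr_z, pr_s, pr_bad (by omega) (by omega) b1, pr_bad (by omega) (by omega) b2,
      pr_bad (by omega) (by omega) b4, pr_bad (by omega) (by omega) b5]
    rfl

/-- the right places -/
theorem flat_right (haz : a ≠ z) (hbz : b ≠ z) (hfz : f ≠ z) (ht : t = a ∨ t = b ∨ t = f)
    {e : ℕ} {Q1 Q2 : List ℕ} (h1 : ∀ i ∈ Q1, i ≠ a ∧ i ≠ b ∧ i ≠ f ∧ i ≠ z)
    (he : e ≠ a ∧ e ≠ b ∧ e ≠ f ∧ e ≠ z)
    (h2 : ∀ i ∈ Q2, i ≠ a ∧ i ≠ b ∧ i ≠ f ∧ i ≠ z) :
    (pp (Q1 ++ e :: z :: Q2)).flatMap (pr a b f z t) = pp (Q1 ++ e :: Q2) := by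
  rw [pp_append, pp_cons, pp_cons, pp_append, pp_cons, List.flatMap_append, flat_pp ht h1]
  simp only [List.flatMap_cons]
  rw [flat_pp ht h2]
  have b1 : bad a b f z (3 * z + 1) := by unfold bad; omega
  have b2 : bad a b f z (3 * (z + 1) + 2) := by unfold bad; omega
  have b3 : ¬ bad a b f z (3 * e + 1) := by unfold bad; omega
  have b4 : ¬ bad a b f z (3 * (e + 1) + 2) := by unfold bad; omega
  have htz : t ≠ z := by rcases ht with rfl | rfl | rfl <;> assumption
  rw [pr_bad (by omega) (by omega) b1, pr_bad (by omega) (by omega) b2, pr_ok ht b3, pr_ok ht b4]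
  rfl

/-- the main block -/
theorem flat_main (hab : a ≠ b) (haf : a ≠ f) (hbf : b ≠ f) (haz : a ≠ z) (hbz : b ≠ z)
    (hfz : f ≠ z) (ht : t = a ∨ t = b ∨ t = f) {γ2 : List ℕ}
    (h : ∀ c ∈ γ2, ¬ bad a b f z c) :
    ((3 * z + 1) :: 0 :: ((γ2 ++ [3 * f + 1]) ++ [3 * a + 1, 3 * b + 1, 0, 0])).flatMap
      (pr a b f z t) = 0 :: ((γ2 ++ [3 * f + 1]) ++ [0, 0]) := by
  simp only [List.flatMap_cons, List.flatMap_append, List.flatMap_nil]
  rw [flat_ok ht _ h]
  have b0 : ¬ bad a b f z 0 := by unfold bad; omega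
  have b1 : bad a b f z (3 * a + 1) := by unfold bad; omega
  have b2 : bad a b f z (3 * b + 1) := by unfold bad; omega
  have b3 : bad a b f z (3 * f + 1) := by unfold bad; omega
  have b4 : bad a b f z (3 * z + 1) := by unfold bad; omega
  have b5 := pr_ok ht b0
  rcases ht with rfl | rfl | rfl
  · rw [pr_z, b5, pr_bad (by omega) (by omega) b2, pr_bad (by omega) (by omega) b3,
      pr_bad (by omega) (by omega) b4]
    simp
  · rw [pr_z, b5, pr_bad (by omega) (by omega) b1, pr_bad (by omega) (by omega) b3,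
      pr_bad (by omega) (by omega) b4]
    simp
  · rw [pr_z, b5, pr_bad (by omega) (by omega) b1, pr_bad (by omega) (by omega) b2,
      pr_bad (by omega) (by omega) b4]
    simp

theorem two_flat {l : List ℕ} (h : 2 ∉ l) : 2 ∉ l.flatMap (pr a b f z t) := by
  intro hx
  rw [List.mem_flatMap] at hx
  obtain ⟨c, hc, hx⟩ := hx
  rcases pr_mem hx with ⟨h2, h3⟩ | ⟨h2, h3⟩ | ⟨h2, -⟩
  · omega
  · omega
  · exact h (h2 ▸ hc)

theorem two_Bw {B : ℕ → List ℕ} (hB : ∀ r, SFr (B r)) {P : List ℕ} :
    2 ∉ Bw (P.map (fun e => e + 1)) B := by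
  intro h
  unfold Bw at h
  rw [List.mem_flatMap] at h
  obtain ⟨r, hr, h⟩ := h
  rw [List.mem_append, List.mem_singleton] at h
  rw [List.mem_map] at hr
  obtain ⟨i, -, hi⟩ := hr
  rcases h with h | h
  · exact absurd rfl (hB r 2 h)
  · omega

theorem mem_Bw_map {B : ℕ → List ℕ} {P : List ℕ} {i c : ℕ} (hi : i ∈ P) (hc : c ∈ B (i + 1)) :
    c ∈ Bw (P.map (fun e => e + 1)) B := by
  unfold Bw
  rw [List.mem_flatMap]
  exact ⟨i + 1, List.mem_map.2 ⟨i, hi, rfl⟩, by simp [hc]⟩

theorem mem_lab {P Q : List ℕ} {q : ℕ} :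
    q ∈ lab P Q ↔ q = 0 ∨ ∃ i ∈ P ++ Q, q = i + 1 := by
  unfold lab
  simp only [List.mem_append, List.mem_cons, List.mem_map]
  constructor
  · rintro (⟨i, hi, h⟩ | h | ⟨i, hi, h⟩)
    · exact Or.inr ⟨i, Or.inl hi, h.symm⟩
    · exact Or.inl h
    · exact Or.inr ⟨i, Or.inr hi, h.symm⟩
  · rintro (h | ⟨i, hi | hi, h⟩)
    · exact Or.inr (Or.inl h)
    · exact Or.inl ⟨i, hi, h.symm⟩
    · exact Or.inr (Or.inr ⟨i, hi, h.symm⟩)

theorem nodup_lab {P Q : List ℕ} (h : (P ++ Q).Nodup) : (lab P Q).Nodup := by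
  unfold lab
  have h1 : (P.map (fun e => e + 1) ++ 0 :: Q.map (fun e => e + 1)).Perm
      (0 :: (P ++ Q).map (fun e => e + 1)) := by
    rw [List.map_append]
    exact List.perm_middle
  rw [h1.nodup_iff, List.nodup_cons]
  refine ⟨?_, ?_⟩
  · rw [List.mem_map]
    rintro ⟨i, -, hi⟩
    omega
  · exact List.Nodup.map (fun x y hxy => by simpa using hxy) h

/-- STB -/
theorem stb (sha : ShaStmt) (ghh : GhhStmt) : StbStmt := by
  intro β n P1 P2 Q1 Q2 e f a b z γ hG u hu
  obtain ⟨hNF, hnd, -, γ2, hγ2⟩ := hG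
  have hcan := hNF.can
  have hc := hNF.hc
  -- nodup
  have hN : ∀ i, P1.count i + (if a = i then 1 else 0) + (if b = i then 1 else 0) +
      (if f = i then 1 else 0) + P2.count i + Q1.count i + (if e = i then 1 else 0) +
      (if z = i then 1 else 0) + Q2.count i ≤ 1 := by
    intro i
    have h1 := List.nodup_iff_count_le_one.1 hnd i
    simp only [List.count_append, List.count_cons, beq_iff_eq] at h1
    omega
  have hab : a ≠ b := by
    intro h
    have := hN a
    rw [if_pos rfl, if_pos h.symm] at this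
    omega
  have haf : a ≠ f := by
    intro h
    have := hN a
    rw [if_pos rfl, if_pos h.symm] at this
    omega
  have hbf : b ≠ f := by
    intro h
    have := hN b
    rw [if_pos (rfl : b = b), if_pos h.symm] at this
    omega
  have haz : a ≠ z := by
    intro h
    have := hN a
    rw [if_pos (rfl : a = a), if_pos h.symm] at this
    omega
  have hbz : b ≠ z := by
    intro h
    have := hN b
    rw [if_pos (rfl : b = b), if_pos h.symm] at this
    omega
  have hfz : f ≠ z := by
    intro h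
    have := hN f
    rw [if_pos (rfl : f = f), if_pos h.symm] at this
    omega
  have hez : e ≠ a ∧ e ≠ b ∧ e ≠ f ∧ e ≠ z := by
    have := hN e
    rw [if_pos (rfl : e = e)] at this
    refine ⟨?_, ?_, ?_, ?_⟩ <;>
    · intro h
      rw [if_pos h.symm] at this
      omega
  have hP1 : ∀ i ∈ P1, i ≠ a ∧ i ≠ b ∧ i ≠ f ∧ i ≠ z := by
    intro i hi
    have h1 := List.count_pos_iff.2 hi
    have := hN i
    refine ⟨?_, ?_, ?_, ?_⟩ <;>
    · intro h
      rw [if_pos h.symm] at this
      omega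
  have hP2 : ∀ i ∈ P2, i ≠ a ∧ i ≠ b ∧ i ≠ f ∧ i ≠ z := by
    intro i hi
    have h1 := List.count_pos_iff.2 hi
    have := hN i
    refine ⟨?_, ?_, ?_, ?_⟩ <;>
    · intro h
      rw [if_pos h.symm] at this
      omega
  have hQ1 : ∀ i ∈ Q1, i ≠ a ∧ i ≠ b ∧ i ≠ f ∧ i ≠ z := by
    intro i hi
    have h1 := List.count_pos_iff.2 hi
    have := hN i
    refine ⟨?_, ?_, ?_, ?_⟩ <;>
    · intro h
      rw [if_pos h.symm] at this
      omega
  have hQ2 : ∀ i ∈ Q2, i ≠ a ∧ i ≠ b ∧ i ≠ f ∧ i ≠ z := by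
    intro i hi
    have h1 := List.count_pos_iff.2 hi
    have := hN i
    refine ⟨?_, ?_, ?_, ?_⟩ <;>
    · intro h
      rw [if_pos h.symm] at this
      omega
  have hPQ : ∀ i ∈ (P1 ++ f :: P2) ++ (Q1 ++ e :: Q2), i ≠ a ∧ i ≠ b ∧ i ≠ z := by
    intro i hi
    simp only [List.mem_append, List.mem_cons] at hi
    rcases hi with (hi | hi | hi) | (hi | hi | hi)
    · have := hP1 i hi
      exact ⟨this.1, this.2.1, this.2.2.2⟩
    · rw [hi]
      exact ⟨haf.symm, hbf.symm, hfz⟩
    · have := hP2 i hi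
      exact ⟨this.1, this.2.1, this.2.2.2⟩
    · have := hQ1 i hi
      exact ⟨this.1, this.2.1, this.2.2.2⟩
    · rw [hi]
      exact ⟨hez.1, hez.2.1, hez.2.2.2⟩
    · have := hQ2 i hi
      exact ⟨this.1, this.2.1, this.2.2.2⟩
  have hmem : ∀ i ∈ (P1 ++ a :: b :: f :: P2) ++ (Q1 ++ e :: z :: Q2),
      i = a ∨ i = b ∨ i = z ∨ i ∈ (P1 ++ f :: P2) ++ (Q1 ++ e :: Q2) := by
    intro i hi
    simp only [List.mem_append, List.mem_cons] at hi ⊢
    tauto
  -- letters of γ
  have hγn : ∀ i, (i = a ∨ i = b ∨ i = z) → γ.count (3 * i + 1) = 0 := by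
    intro i hi
    rw [List.count_eq_zero]
    intro h
    obtain ⟨j, hj, hj2⟩ := hcan.ps _ h (by omega)
    have h4 := hPQ j hj
    have : i = j := by omega
    rcases hi with h | h | h
    · exact h4.1 (by rw [← this, h])
    · exact h4.2.1 (by rw [← this, h])
    · exact h4.2.2 (by rw [← this, h])
  have hγ2b : ∀ c ∈ γ2, ¬ bad a b f z c := by
    intro c hc2 hbad
    have hcγ : c ∈ γ := by
      rw [hγ2]
      simp [hc2]
    have hs := hcan.sf c hcγ
    have ha0 := hγn a (Or.inl rfl)
    have hb0 := hγn b (Or.inr (Or.inl rfl))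
    have hz0 := hγn z (Or.inr (Or.inr rfl))
    have hf1 : γ.count (3 * f + 1) = 1 := hcan.pl f (by simp)
    have hf2 : γ2.count (3 * f + 1) = 0 := by
      rw [hγ2, List.count_append] at hf1
      simp at hf1
      exact hf1
    rw [List.count_eq_zero] at ha0 hb0 hz0 hf2
    unfold bad at hbad
    rcases hbad with h | h | h | h | h | h | h | h
    · exact ha0 (h ▸ hcγ)
    · exact hb0 (h ▸ hcγ)
    · exact hf2 (h ▸ hc2)
    · exact hz0 (h ▸ hcγ)
    · omega
    · omega
    · omega
    · omega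
  -- the projections of the given word
  have hword : ∀ t, (t = a ∨ t = b ∨ t = f) → ∀ K : List ℕ,
      (Wm (P1 ++ a :: b :: f :: P2) (Q1 ++ e :: z :: Q2) K).flatMap (pr a b f z t) =
        pp (P1 ++ f :: P2) ++ (K.flatMap (pr a b f z t) ++ 2 :: pp (Q1 ++ e :: Q2)) := by
    intro t ht K
    have b2 : ¬ bad a b f z 2 := by unfold bad; omega
    rw [Wm_eq, List.flatMap_append, List.flatMap_append, List.flatMap_cons,
      flat_left hab haf hbf ht hP1 hP2, flat_right haz hbz hfz ht hQ1 hez hQ2, pr_ok ht b2]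
    rfl
  have hgiven : ∀ t, (t = a ∨ t = b ∨ t = f) →
      ∃ γ' : List ℕ, γ'.Perm (0 :: γ) ∧ u.flatMap (pr a b f z t) =
        pp (P1 ++ f :: P2) ++ ((0 :: (γ' ++ [0])) ++ 2 :: pp (Q1 ++ e :: Q2)) := by
    intro t ht
    have h1 := RR.sub (pr a b f z t) hu
    rw [hword t ht] at h1
    rw [hγ2, flat_main hab haf hbf haz hbz hfz ht hγ2b, ← hγ2] at h1
    rw [← Wm_eq] at h1
    obtain ⟨γ', h2, h3⟩ := ghh β n _ _ γ hNF _ h1
    exact ⟨γ', h2, by rw [h3, Wm_eq]⟩
  -- the shape
  obtain ⟨L, hL⟩ : ∃ L, L = (3 * z + 1) :: 0 :: (γ ++ [3 * a + 1, 3 * b + 1, 0, 0]) := ⟨_, rfl⟩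
  rw [← hL] at hu ⊢
  obtain ⟨B, hB⟩ : ∃ B : ℕ → List ℕ, B = fun r => if r = 0 then L else [3 * (r - 1) + 1] :=
    ⟨_, rfl⟩
  have hB0 : B 0 = L := by rw [hB]; rfl
  have hBs : ∀ i, B (i + 1) = [3 * i + 1] := by
    intro i
    rw [hB]
    simp
  have hWm : ∀ K, Wm (P1 ++ a :: b :: f :: P2) (Q1 ++ e :: z :: Q2) K =
      Bw (lab (P1 ++ a :: b :: f :: P2) (Q1 ++ e :: z :: Q2))
        (fun r => if r = 0 then K else [3 * (r - 1) + 1]) := fun K => rfl
  have hu2 := hu
  rw [hWm, ← hB] at hu2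
  have hLs : SFr L := by
    intro c hc'
    rw [hL] at hc'
    simp only [List.mem_cons, List.mem_append, List.not_mem_nil, or_false] at hc'
    rcases hc' with h | h | h | h | h | h | h
    · omega
    · omega
    · exact hcan.sf c h
    · omega
    · omega
    · omega
    · omega
  have hLc : ∀ c, L.count c = γ.count c + ((if 3 * z + 1 = c then 1 else 0) +
      (if 0 = c then 3 else 0) + (if 3 * a + 1 = c then 1 else 0) +
      (if 3 * b + 1 = c then 1 else 0)) := by
    intro c
    rw [hL]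
    simp only [List.count_append, List.count_cons, beq_iff_eq, List.count_nil]
    split_ifs <;> omega
  have hBf : ∀ r ∈ lab (P1 ++ a :: b :: f :: P2) (Q1 ++ e :: z :: Q2), SFr (B r) := by
    intro r hr
    rw [mem_lab] at hr
    rcases hr with rfl | ⟨i, -, rfl⟩
    · rw [hB0]
      exact hLs
    · rw [hBs]
      intro c hc'
      rw [List.mem_singleton] at hc'
      omega
  obtain ⟨B', e', hB's, he's, hw, h1, h2, h3⟩ := sha β hc.i2 hc.i3 hc.na _ B u (nodup_lab hnd)
    hBf hu2
  have hcnt : ∀ c, c % 3 ≠ 2 → c ≠ 0 →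
      (∀ q ∈ lab (P1 ++ a :: b :: f :: P2) (Q1 ++ e :: z :: Q2), (B' q).count c = (B q).count c) ∧
        e'.count c = 0 := by
    intro c hc3 hc0
    have hnot : (∀ q ∈ lab (P1 ++ a :: b :: f :: P2) (Q1 ++ e :: z :: Q2), c ∉ B q) →
        (∀ q ∈ lab (P1 ++ a :: b :: f :: P2) (Q1 ++ e :: z :: Q2),
          (B' q).count c = (B q).count c) ∧ e'.count c = 0 := by
      intro h
      obtain ⟨h4, h5⟩ := h1 c h
      refine ⟨fun q hq => ?_, List.count_eq_zero.2 h5⟩
      rw [List.count_eq_zero.2 (h4 q hq), List.count_eq_zero.2 (h q hq)]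
    by_cases h31 : c % 3 = 1
    · obtain ⟨i, rfl⟩ : ∃ i, c = 3 * i + 1 := ⟨c / 3, by omega⟩
      by_cases hi : i ∈ (P1 ++ a :: b :: f :: P2) ++ (Q1 ++ e :: z :: Q2)
      · have hLi : L.count (3 * i + 1) = 1 := by
          rw [hLc, if_neg (by omega : ¬ (0 = 3 * i + 1))]
          rcases hmem i hi with h | h | h | h
          · rw [hγn i (Or.inl h), if_pos (by omega : 3 * a + 1 = 3 * i + 1), if_neg (by omega),
              if_neg (by omega)]
          · rw [hγn i (Or.inr (Or.inl h)), if_pos (by omega : 3 * b + 1 = 3 * i + 1),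
              if_neg (by omega), if_neg (by omega)]
          · rw [hγn i (Or.inr (Or.inr h)), if_pos (by omega : 3 * z + 1 = 3 * i + 1),
              if_neg (by omega), if_neg (by omega)]
          · have h5 := hPQ i h
            rw [hcan.pl i h, if_neg (by omega), if_neg (by omega), if_neg (by omega)]
        have hcc : ∀ q ∈ lab (P1 ++ a :: b :: f :: P2) (Q1 ++ e :: z :: Q2),
            (B q).count (3 * i + 1) = if q = 0 ∨ q = i + 1 then 1 else 0 := by
          intro q hq
          rw [mem_lab] at hq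
          rcases hq with rfl | ⟨j, -, rfl⟩
          · rw [hB0, hLi, if_pos (Or.inl rfl)]
          · rw [hBs]
            by_cases hij : j = i
            · rw [hij, if_pos (Or.inr rfl)]
              simp
            · rw [if_neg (by omega), List.count_eq_zero, List.mem_singleton]
              omega
        obtain ⟨h4, h5⟩ := h2 (3 * i + 1) 0 (i + 1) (by omega) (mem_lab.2 (Or.inl rfl))
          (mem_lab.2 (Or.inr ⟨i, hi, rfl⟩)) (by omega) hcc
        exact ⟨fun q hq => by rw [h4 q hq, hcc q hq], h5⟩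
      · apply hnot
        intro q hq
        rw [mem_lab] at hq
        rcases hq with rfl | ⟨j, hj, rfl⟩
        · rw [hB0, ← List.count_eq_zero, hLc, if_neg (by omega : ¬ (0 = 3 * i + 1))]
          have hi2 : i ≠ a ∧ i ≠ b ∧ i ≠ z := by
            refine ⟨?_, ?_, ?_⟩ <;>
            · intro h
              apply hi
              rw [h]
              simp
          have hγ0 : γ.count (3 * i + 1) = 0 := by
            rw [List.count_eq_zero]
            intro h
            obtain ⟨j, hj, hj2⟩ := hcan.ps _ h (by omega)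
            have hij : i = j := by omega
            apply hi
            rw [hij]
            simp only [List.mem_append, List.mem_cons] at hj ⊢
            tauto
          rw [hγ0, if_neg (by omega), if_neg (by omega), if_neg (by omega)]
        · rw [hBs, List.mem_singleton]
          intro h
          apply hi
          have : i = j := by omega
          rw [this]
          exact hj
    · have h30 : c % 3 = 0 := by omega
      by_cases hcγ : c ∈ γ
      · have hcc : ∀ q ∈ lab (P1 ++ a :: b :: f :: P2) (Q1 ++ e :: z :: Q2),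
            (B q).count c = if q = 0 then 2 else 0 := by
          intro q hq
          rw [mem_lab] at hq
          rcases hq with rfl | ⟨j, -, rfl⟩
          · rw [hB0, hLc, (hcan.lc c hcγ h30).1, if_pos rfl, if_neg (by omega), if_neg (by omega),
              if_neg (by omega), if_neg (by omega)]
          · rw [hBs, if_neg (by omega), List.count_eq_zero, List.mem_singleton]
            omega
        obtain ⟨h4, h5⟩ := h3 c 0 hc3 (mem_lab.2 (Or.inl rfl)) hcc
        exact ⟨fun q hq => by rw [h4 q hq, hcc q hq], h5⟩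
      · apply hnot
        intro q hq
        rw [mem_lab] at hq
        rcases hq with rfl | ⟨j, hj, rfl⟩
        · rw [hB0, ← List.count_eq_zero, hLc, List.count_eq_zero.2 hcγ, if_neg (by omega),
            if_neg (by omega), if_neg (by omega), if_neg (by omega)]
        · rw [hBs, List.mem_singleton]
          omega
  -- the letters `0`
  obtain ⟨P3, l, hPl⟩ : ∃ P3 l, f :: P2 = P3 ++ [l] := by
    rcases List.eq_nil_or_concat (f :: P2) with h | ⟨P3, l, h⟩
    · simp at h
    · exact ⟨P3, l, by simpa using h⟩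
  have hl : l = f ∨ l ∈ P2 := by
    have : l ∈ f :: P2 := by rw [hPl]; simp
    simpa using this
  obtain ⟨γ', hγ', hγu⟩ := hgiven f (Or.inr (Or.inr rfl))
  obtain ⟨X, hX⟩ : ∃ X, X = Bw ((P1 ++ a :: b :: P3).map (fun e => e + 1)) B' ++ B' (l + 1) :=
    ⟨_, rfl⟩
  obtain ⟨Y, hY⟩ : ∃ Y, Y = Bw ((Q1 ++ e :: z :: Q2).map (fun e => e + 1)) B' ++ e' := ⟨_, rfl⟩
  have hdec : u = (X ++ (3 * (l + 1) + 2) :: B' 0) ++ 2 :: Y := by
    rw [hw, hX, hY]
    unfold lab
    have h4 : P1 ++ a :: b :: f :: P2 = (P1 ++ a :: b :: P3) ++ [l] := by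
      rw [hPl]
      simp
    rw [h4, List.map_append, Bw_append, Bw_append, Bw_cons]
    simp [Bw]
  have hl2 : pr a b f z f (3 * (l + 1) + 2) = [3 * (l + 1) + 2] := by
    rcases hl with rfl | h
    · exact pr_s
    · have h4 := hP2 l h
      apply pr_ok (Or.inr (Or.inr rfl))
      unfold bad
      omega
  have hdec2 : u.flatMap (pr a b f z f) =
      (X.flatMap (pr a b f z f) ++ (3 * (l + 1) + 2) :: (B' 0).flatMap (pr a b f z f)) ++
        2 :: Y.flatMap (pr a b f z f) := by
    have b2 : ¬ bad a b f z 2 := by unfold bad; omega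
    rw [hdec, List.flatMap_append, List.flatMap_append, List.flatMap_cons, List.flatMap_cons,
      hl2, pr_ok (Or.inr (Or.inr rfl)) b2]
    rfl
  have hppP : pp (P1 ++ f :: P2) = (pp (P1 ++ P3) ++ [3 * l + 1]) ++ [3 * (l + 1) + 2] := by
    rw [hPl, ← List.append_assoc, pp_append, pp_cons, pp_nil]
    simp
  rw [hdec2, hppP] at hγu
  have hγu2 : (X.flatMap (pr a b f z f) ++ (3 * (l + 1) + 2) :: (B' 0).flatMap (pr a b f z f)) ++
        2 :: Y.flatMap (pr a b f z f) =
      ((pp (P1 ++ P3) ++ [3 * l + 1]) ++ (3 * (l + 1) + 2) :: (0 :: (γ' ++ [0]))) ++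
        2 :: pp (Q1 ++ e :: Q2) := by
    rw [hγu]
    simp
  have hγ's : SFr (0 :: (γ' ++ [0])) := by
    intro c hc'
    simp only [List.mem_cons, List.mem_append, List.not_mem_nil, or_false] at hc'
    rcases hc' with h | h | h
    · omega
    · have h4 := hγ'.mem_iff.1 h
      rw [List.mem_cons] at h4
      rcases h4 with h4 | h4
      · omega
      · exact hcan.sf c h4
    · omega
  have hKs : SFr ((B' 0).flatMap (pr a b f z f)) := sfr_flat (hB's 0)
  have hX2 : 2 ∉ X := by
    rw [hX, List.mem_append]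
    rintro (h | h)
    · exact two_Bw hB's h
    · exact absurd rfl (hB's _ 2 h)
  obtain ⟨hA, hYf⟩ := split_left (s := 2) (by
      rw [List.mem_append, List.mem_cons]
      rintro (h | h | h)
      · exact two_flat hX2 h
      · omega
      · exact absurd rfl (hKs 2 h)) (by
      rw [List.mem_append, List.mem_append, List.mem_singleton, List.mem_cons]
      rintro ((h | h) | h | h)
      · exact two_pp h
      · omega
      · omega
      · exact absurd rfl (hγ's 2 h)) hγu2
  obtain ⟨hXf, hKf⟩ := split_right (s := 3 * (l + 1) + 2) (fun h => by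
      have := hKs _ h
      omega) (fun h => by
      have := hγ's _ h
      omega) hA
  have hX0 : 0 ∉ X := by
    intro h
    have h4 := zero_mem_flat (a := a) (b := b) (f := f) (z := z) (t := f) h
    rw [hXf, List.mem_append, List.mem_singleton] at h4
    rcases h4 with h4 | h4
    · exact zero_pp h4
    · omega
  have hY0 : 0 ∉ Y := by
    intro h
    have h4 := zero_mem_flat (a := a) (b := b) (f := f) (z := z) (t := f) h
    rw [hYf] at h4
    exact zero_pp h4
  have hP'm : ∀ i ∈ P1 ++ a :: b :: f :: P2, i ∈ P1 ++ a :: b :: P3 ∨ i = l := by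
    intro i hi
    have h4 : P1 ++ a :: b :: f :: P2 = (P1 ++ a :: b :: P3) ++ [l] := by
      rw [hPl]
      simp
    rw [h4, List.mem_append, List.mem_singleton] at hi
    exact hi
  have hbl0 : ∀ i ∈ (P1 ++ a :: b :: f :: P2) ++ (Q1 ++ e :: z :: Q2), 0 ∉ B' (i + 1) := by
    intro i hi h
    rw [List.mem_append] at hi
    rcases hi with hi | hi
    · rcases hP'm i hi with h4 | h4
      · apply hX0
        rw [hX, List.mem_append]
        exact Or.inl (mem_Bw_map h4 h)
      · apply hX0
        rw [hX, List.mem_append]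
        exact Or.inr (h4 ▸ h)
    · apply hY0
      rw [hY, List.mem_append]
      exact Or.inl (mem_Bw_map hi h)
  have hbl : ∀ i ∈ (P1 ++ a :: b :: f :: P2) ++ (Q1 ++ e :: z :: Q2), B' (i + 1) = [3 * i + 1] := by
    intro i hi
    apply List.perm_singleton.1
    rw [List.perm_iff_count]
    intro c
    rw [← hBs i]
    by_cases hc2 : c % 3 = 2
    · rw [List.count_eq_zero.2 (fun h => hB's _ c h hc2), List.count_eq_zero.2 (fun h =>
        hBf (i + 1) (mem_lab.2 (Or.inr ⟨i, hi, rfl⟩)) c h hc2)]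
    · by_cases hc0 : c = 0
      · rw [hc0, List.count_eq_zero.2 (hbl0 i hi), hBs, List.count_eq_zero.2 (by simp)]
      · exact (hcnt c hc2 hc0).1 (i + 1) (mem_lab.2 (Or.inr ⟨i, hi, rfl⟩))
  have he0 : e' = [] := by
    rw [List.eq_nil_iff_forall_not_mem]
    intro c hce
    have h4 := he's c hce
    by_cases hc0 : c = 0
    · apply hY0
      rw [hY, List.mem_append]
      exact Or.inr (hc0 ▸ hce)
    · exact (List.count_eq_zero.1 (hcnt c h4 hc0).2) hce
  have huW : u = Wm (P1 ++ a :: b :: f :: P2) (Q1 ++ e :: z :: Q2) (B' 0) := by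
    rw [hw, he0, List.append_nil, hWm]
    unfold Bw
    apply List.flatMap_congr
    intro r hr
    rw [mem_lab] at hr
    rcases hr with rfl | ⟨i, hi, rfl⟩
    · rfl
    · rw [hbl i hi]
      simp
  refine ⟨B' 0, ?_, huW, ?_⟩
  · rw [List.perm_iff_count]
    intro c
    by_cases hc2 : c % 3 = 2
    · rw [List.count_eq_zero.2 (fun h => hB's _ c h hc2), List.count_eq_zero.2 (fun h =>
        hLs c h hc2)]
    · by_cases hc0 : c = 0
      · rw [hc0, ← count_zero_flat (a := a) (b := b) (f := f) (z := z) (t := f) (B' 0), hKf,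
          List.count_cons, List.count_append, hγ'.count_eq, List.count_cons, hLc]
        simp
      · rw [(hcnt c hc2 hc0).1 0 (mem_lab.2 (Or.inl rfl)), hB0]
  · intro i hi
    have hmain : ∀ t, (t = a ∨ t = b ∨ t = f) → ∀ x, x ∈ γ → (∀ c, x ∈ pr a b f z t c → c = 3 * i + 1) →
        Btw 0 (3 * i + 1) (B' 0) := by
      intro t ht x hx hpre
      obtain ⟨γt, hγt, h4⟩ := hgiven t ht
      rw [huW, hword t ht] at h4
      have h5 := List.append_cancel_right (List.append_cancel_left h4)
      refine lift_btw (pr a b f z t) pr_len (x := 0) (y := x) ?_ hpre ?_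
      · intro c hc'
        rcases pr_mem hc' with ⟨h6, h7⟩ | ⟨h6, h7⟩ | ⟨h6, -⟩ <;> omega
      · rw [h5]
        exact ⟨[], γt, [], rfl, hγt.mem_iff.2 (by simp [hx])⟩
    have hi2 : i = a ∨ i = b ∨ (i ≠ z ∧ i ≠ a ∧ i ≠ b ∧ i ∈ (P1 ++ f :: P2) ++ (Q1 ++ e :: Q2)) := by
      rcases hmem i (by rw [List.mem_append]; exact Or.inl hi) with h | h | h | h
      · exact Or.inl h
      · exact Or.inr (Or.inl h)
      · exfalso
        have h4 := hN z
        rw [if_pos (rfl : z = z)] at h4
        have h5 : 0 < (P1 ++ a :: b :: f :: P2).count z := by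
          rw [List.count_pos_iff, ← h]
          exact hi
        simp only [List.count_append, List.count_cons, beq_iff_eq] at h5
        omega
      · have h4 := hPQ i h
        exact Or.inr (Or.inr ⟨h4.2.2, h4.1, h4.2.1, h⟩)
    have hfγ : 3 * f + 1 ∈ γ := by
      rw [← List.count_pos_iff, hcan.pl f (by simp)]
      exact Nat.one_pos
    rcases hi2 with h | h | ⟨hz', ha', hb', h⟩
    · apply hmain a (Or.inl rfl) _ hfγ
      intro c hc'
      rcases pr_mem hc' with ⟨h6, h7⟩ | ⟨h6, h7⟩ | ⟨h6, h7⟩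
      · omega
      · omega
      · exfalso
        apply h7
        unfold bad
        omega
    · apply hmain b (Or.inr (Or.inl rfl)) _ hfγ
      intro c hc'
      rcases pr_mem hc' with ⟨h6, h7⟩ | ⟨h6, h7⟩ | ⟨h6, h7⟩
      · omega
      · omega
      · exfalso
        apply h7
        unfold bad
        omega
    · have hiγ : 3 * i + 1 ∈ γ := by
        rw [← List.count_pos_iff, hcan.pl i h]
        exact Nat.one_pos
      apply hmain f (Or.inr (Or.inr rfl)) _ hiγ
      intro c hc'
      rcases pr_mem hc' with ⟨h6, h7⟩ | ⟨h6, h7⟩ | ⟨h6, h7⟩ <;> omega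

end Pool.Agent.MVD.H70
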